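import Pool.Agent.U798.GP.Spec
import Pool.Agent.H552Res.K6

/-!
# Project GQ, package KUM: primes with prescribed power residue symbols of all the small primes
-/

set_option autoImplicit false

namespace Pool.Agent.U624.GP

open NumberField Pool.Agent.Q202.RT Pool.Agent.W401.Cheb Pool.Agent.H552Res

theorem kum_aux (X M : ℕ) (hM : M ≠ 0) (v : ℕ → ZMod M) :
    ∃ (r m : ℕ) (z : ZMod r), r.Prime ∧ X < r ∧ 1 ≤ m ∧ orderOf z = M ∧
      ∀ l : ℕ, l.Prime → l ≤ X → (l : ZMod r) ^ m = z ^ (v l).val := by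
  classical
  have hk : 2 * M ≠ 0 := by omega
  have hne : NeZero (2 * M) := ⟨hk⟩
  obtain ⟨L, i1, i2, i3, ζ, α, hζ, hα⟩ := exists_fldK (2 * M) hk (fun q : Ix X => (q : ℕ))
  have hη : IsPrimitiveRoot (ζ ^ 2) M := hζ.pow (by omega) rfl
  obtain ⟨σ, hσ1, hσ2⟩ := surj2 hM hζ hη rfl α hα (fun q => v (q : ℕ))
  obtain ⟨r, hpS, hpB⟩ := (infinite_frob L σ).exists_gt (max X (2 * M))
  obtain ⟨hr, hxp⟩ := hpS
  have hfr : Fact r.Prime := ⟨hr⟩
  have hrk : ¬ r ∣ 2 * M := fun h => by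
    have := Nat.le_of_dvd (Nat.pos_of_ne_zero hk) h
    omega
  obtain ⟨φ, hφ⟩ : ∃ φ : 𝓞 L →+* AlgebraicClosure (ZMod r), HasFrob r φ σ := by
    by_contra hno
    apply hxp
    unfold xp
    rw [dif_pos hr]
    have : IsEmpty {φ : 𝓞 L →+* AlgebraicClosure (ZMod r) // HasFrob r φ σ} := ⟨fun x => hno ⟨x.1, x.2⟩⟩
    exact Nat.card_of_isEmpty
  have hp1 : 2 * M ∣ r - 1 := by
    have h1 := frob_zeta hk hζ hrk φ hφ (m := 1) (by rw [pow_one]; exact hσ1)
    have h2 : ((r - 1 : ℕ) : ZMod (2 * M)) = 0 := by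
      rw [Nat.cast_sub hr.one_le, ← h1, sub_self]
    exact (ZMod.natCast_eq_zero_iff _ _).1 h2
  obtain ⟨m, hm⟩ := hp1
  have hrm : r = 2 * M * m + 1 := by have := hr.one_le; omega
  have hm1 : 1 ≤ m := by
    rcases Nat.eq_zero_or_pos m with h | h
    · rw [h] at hrm
      have := hr.two_le
      omega
    · exact h
  have h7 : IsPrimitiveRoot (φ hζ.toInteger) (2 * M) := prim_map (q := r) hk hrk φ hζ.toInteger_isPrimitiveRoot
  have h8 : IsPrimitiveRoot (φ hζ.toInteger ^ 2) M := h7.pow (by omega) rfl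
  have h9 : (φ hζ.toInteger ^ 2) ^ r = φ hζ.toInteger ^ 2 := by
    have h10 : ∀ n : ℕ, n = 2 * M * m + 1 → (φ hζ.toInteger ^ 2) ^ n = φ hζ.toInteger ^ 2 := by
      rintro n rfl
      have h11 : (φ hζ.toInteger ^ 2) ^ (2 * M * m) = 1 := by
        rw [← pow_mul, show 2 * (2 * M * m) = 2 * M * (2 * m) by ring, pow_mul, h7.pow_eq_one, one_pow]
      rw [pow_succ, h11, one_mul]
    exact h10 r hrm
  have h12 := (Subfield.mem_bot_iff_pow_eq_self (AlgebraicClosure (ZMod r)) r).2 h9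
  rw [← ZMod.fieldRange_castHom_eq_bot r] at h12
  obtain ⟨z, hz⟩ := h12
  set ψ := ZMod.castHom (m := r) dvd_rfl (AlgebraicClosure (ZMod r)) with hψ
  refine ⟨r, m, z, hr, by omega, hm1, ?_, fun l hl hlX => ?_⟩
  · rw [← orderOf_injective ψ.toMonoidHom ψ.injective z]
    show orderOf (ψ z) = M
    rw [hz]
    exact h8.eq_orderOf.symm
  · have hlpr : l ∈ pr X := mem_pr.2 ⟨hlX, hl⟩
    set q : Ix X := ⟨l, hlpr⟩ with hq
    have hβ : α q ^ (2 * M) = (l : L) := hα q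
    have hiβ : IsIntegral ℤ (α q) := by
      apply IsIntegral.of_pow (Nat.pos_of_ne_zero hk)
      rw [hβ, show (l : L) = algebraMap ℤ L (l : ℤ) by simp]
      exact isIntegral_algebraMap
    set β' : 𝓞 L := ⟨α q, hiβ⟩ with hβ'
    have h1 : σ • β' = (hζ.toInteger ^ 2) ^ (v l).val * β' := by
      apply RingOfIntegers.ext
      have e0 : (((hζ.toInteger ^ 2) ^ (v l).val * β' : 𝓞 L) : L) =
          (((hζ.toInteger ^ 2) ^ (v l).val : 𝓞 L) : L) * (β' : L) := map_mul (algebraMap (𝓞 L) L) _ _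
      have e1 : (((hζ.toInteger ^ 2) ^ (v l).val : 𝓞 L) : L) = ((hζ.toInteger ^ 2 : 𝓞 L) : L) ^ (v l).val :=
        map_pow (algebraMap (𝓞 L) L) _ _
      have e2 : ((hζ.toInteger ^ 2 : 𝓞 L) : L) = (hζ.toInteger : L) ^ 2 := map_pow (algebraMap (𝓞 L) L) _ _
      rw [e0, e1, e2]
      exact hσ2 q
    have h2 : β' ^ (2 * M) = (l : 𝓞 L) := by
      apply RingOfIntegers.ext
      have e1 : ((β' ^ (2 * M) : 𝓞 L) : L) = (β' : L) ^ (2 * M) := map_pow (algebraMap (𝓞 L) L) _ _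
      have e2 : (((l : ℕ) : 𝓞 L) : L) = (l : L) := map_natCast (algebraMap (𝓞 L) L) _
      rw [e1, e2]
      exact hβ
    have h3 : φ β' ^ (2 * M) = (l : AlgebraicClosure (ZMod r)) := by rw [← map_pow, h2, map_natCast]
    have hl0 : (l : AlgebraicClosure (ZMod r)) ≠ 0 := by
      intro h
      have h4 := (CharP.cast_eq_zero_iff (AlgebraicClosure (ZMod r)) r l).1 h
      have := Nat.le_of_dvd hl.pos h4
      omega
    have h0 : φ β' ≠ 0 := by
      intro h
      rw [h, zero_pow hk] at h3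
      exact hl0 h3.symm
    have h4 : (φ hζ.toInteger ^ 2) ^ (v l).val * φ β' = φ β' ^ r := by
      rw [← map_pow, ← map_pow, ← map_mul, ← h1]; exact hφ β'
    have h5 : φ β' ^ r = (l : AlgebraicClosure (ZMod r)) ^ m * φ β' := by
      have h6 : ∀ n : ℕ, n = 2 * M * m + 1 → φ β' ^ n = (l : AlgebraicClosure (ZMod r)) ^ m * φ β' := by
        rintro n rfl
        rw [pow_succ, pow_mul, h3]
      exact h6 r hrm
    rw [h5] at h4
    have h6 := mul_right_cancel₀ h0 h4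
    apply ψ.injective
    rw [map_pow, map_pow, hz, map_natCast]
    exact h6.symm

theorem t_KUM : Pool.Agent.U798.GP.S_KUM := fun X M hM v => kum_aux X M hM v

end Pool.Agent.U624.GP
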